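import Mathlib
import Pool.Agent.H157R2.Menger

/-!
# Edge-connected subgraphs forced by average edge-connectivity: `f(l) = ⌊l/2⌋ + 1`
-/

namespace Pool.Agent.Results.MP_3eb4be_co.ExactValue

open SimpleGraph Finset

/-- The maximum number of pairwise edge-disjoint paths between `v` and `w`. -/
noncomputable def lam {V : Type} (G : SimpleGraph V) (v w : V) : ℕ :=
  sSup {m | ∃ p : Fin m → G.Walk v w, (∀ i, (p i).IsPath) ∧
    Pairwise (fun i j => List.Disjoint (p i).edges (p j).edges)}

/-- The average edge-connectivity: the average of `lam v w` over all (ordered) pairs of distinct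
vertices. -/
noncomputable def avgConn {V : Type} [Fintype V] [DecidableEq V] (G : SimpleGraph V) : ℚ :=
  (∑ p ∈ (univ : Finset V).offDiag, (lam G p.1 p.2 : ℚ)) /
    (Fintype.card V * (Fintype.card V - 1))

/-- `G` contains a `t`-edge-connected subgraph with at least two vertices. -/
def HasTEC {V : Type} (G : SimpleGraph V) (t : ℕ) : Prop :=
  ∃ H : G.Subgraph, H.verts.Nontrivial ∧ H.coe.IsEdgeConnected t

section lower

variable {V : Type} [Fintype V] [DecidableEq V] (G : SimpleGraph V)

lemma paths_le_degree [DecidableRel G.Adj] {v w : V} (hvw : v ≠ w) {m : ℕ}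
    (p : Fin m → G.Walk v w)
    (hd : Pairwise (fun i j => List.Disjoint (p i).edges (p j).edges)) : m ≤ G.degree v := by
  have hnil : ∀ i, ¬ (p i).Nil := fun i => Walk.not_nil_of_ne hvw
  have hinj : Function.Injective (fun i => (p i).snd) := by
    intro i j hij
    by_contra hne
    have h1 : s(v, (p i).snd) ∈ (p i).edges := Walk.mk_start_snd_mem_edges (hnil i)
    have h2 : s(v, (p j).snd) ∈ (p j).edges := Walk.mk_start_snd_mem_edges (hnil j)
    simp only at hij
    rw [hij] at h1
    exact hd hne h1 h2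
  have : (univ.image (fun i => (p i).snd)).card ≤ (G.neighborFinset v).card := by
    apply card_le_card
    intro x hx
    rw [mem_image] at hx
    obtain ⟨i, _, rfl⟩ := hx
    rw [mem_neighborFinset]
    exact Walk.adj_snd (hnil i)
  rwa [card_image_of_injective _ hinj, card_univ, Fintype.card_fin] at this

lemma lam_bdd {v w : V} (hvw : v ≠ w) : BddAbove {m | ∃ p : Fin m → G.Walk v w,
    (∀ i, (p i).IsPath) ∧ Pairwise (fun i j => List.Disjoint (p i).edges (p j).edges)} := by
  classical
  refine ⟨G.degree v, ?_⟩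
  rintro m ⟨p, _, hd⟩
  exact paths_le_degree G hvw p hd

lemma lam_le_degree [DecidableRel G.Adj] {v w : V} (hvw : v ≠ w) : lam G v w ≤ G.degree v := by
  unfold lam
  apply csSup_le
  · exact ⟨0, fun i => i.elim0, fun i => i.elim0, fun i => i.elim0⟩
  · rintro m ⟨p, _, hd⟩
    exact paths_le_degree G hvw p hd

/-- number of edges inside `A` -/
noncomputable def ein [DecidableRel G.Adj] (A : Finset V) : ℕ :=
  (G.edgeFinset.filter (fun e => ∀ x ∈ e, x ∈ A)).card

lemma exists_tec [DecidableRel G.Adj] (s : ℕ) : ∀ (n : ℕ) (A : Finset V), A.card = n →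
    s * (A.card - 1) < ein G A → HasTEC G (s + 1) := by
  intro n
  induction n using Nat.strong_induction_on with
  | _ n ih =>
    intro A hn hA
    by_cases hc : (G.induce (A : Set V)).IsEdgeConnected (s + 1)
    · refine ⟨(⊤ : G.Subgraph).induce (A : Set V), ?_, ?_⟩
      · simp only [Subgraph.induce_verts]
        have hpos : 0 < ein G A := by omega
        unfold ein at hpos
        rw [card_pos] at hpos
        obtain ⟨e, he⟩ := hpos
        rw [mem_filter, mem_edgeFinset] at he
        induction e with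
        | _ x y =>
          exact ⟨x, he.2 x (by simp), y, he.2 y (by simp), G.ne_of_adj he.1⟩
      · rw [← induce_eq_coe_induce_top]
        exact hc
    · unfold IsEdgeConnected IsEdgeReachable at hc
      push Not at hc
      obtain ⟨u, v, T, hT, hr⟩ := hc
      classical
      set B : Finset V := A.filter (fun x => ∃ hx : x ∈ A,
        ((G.induce (A : Set V)).deleteEdges T).Reachable u ⟨x, hx⟩) with hB
      set C : Finset V := A \ B with hC
      have hBA : B ⊆ A := filter_subset _ _
      have huB : u.1 ∈ B := by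
        rw [hB, mem_filter]
        exact ⟨u.2, u.2, Reachable.refl _⟩
      have hvC : v.1 ∈ C := by
        rw [hC, mem_sdiff, hB, mem_filter]
        refine ⟨v.2, ?_⟩
        rintro ⟨_, _, h⟩
        exact hr h
      have hcard : B.card + C.card = A.card := by
        rw [hC, add_comm]
        exact card_sdiff_add_card_eq_card hBA
      have hB1 : 1 ≤ B.card := card_pos.2 ⟨_, huB⟩
      have hC1 : 1 ≤ C.card := card_pos.2 ⟨_, hvC⟩
      -- edges between
      have hbet : (G.edgeFinset.filter (fun e => (∀ x ∈ e, x ∈ A) ∧ ¬ (∀ x ∈ e, x ∈ B) ∧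
          ¬ (∀ x ∈ e, x ∈ C))).card ≤ s := by
        have hsub : ((G.edgeFinset.filter (fun e => (∀ x ∈ e, x ∈ A) ∧ ¬ (∀ x ∈ e, x ∈ B) ∧
          ¬ (∀ x ∈ e, x ∈ C)) : Finset (Sym2 V)) : Set (Sym2 V)) ⊆
            Sym2.map (Subtype.val (p := fun x => x ∈ (A : Set V))) '' T := by
          intro e he
          rw [mem_coe, mem_filter, mem_edgeFinset] at he
          obtain ⟨heG, heA, heB, heC⟩ := he
          have key : ∀ x y : V, G.Adj x y → ∀ (hx : x ∈ A) (hy : y ∈ A), x ∈ B → y ∈ C →
              s(x, y) ∈ Sym2.map (Subtype.val (p := fun x => x ∈ (A : Set V))) '' T := by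
            intro x y hxy hx hy hxB hyC
            refine ⟨s(⟨x, hx⟩, ⟨y, hy⟩), ?_, by simp⟩
            by_contra hnT
            rw [hC, mem_sdiff] at hyC
            apply hyC.2
            rw [hB, mem_filter] at hxB ⊢
            obtain ⟨_, _, hrx⟩ := hxB
            refine ⟨hy, hy, hrx.trans (Adj.reachable ?_)⟩
            rw [deleteEdges_adj]
            exact ⟨hxy, hnT⟩
          induction e with
          | _ x y =>
            have hx : x ∈ A := heA x (by simp)
            have hy : y ∈ A := heA y (by simp)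
            have hxy : G.Adj x y := heG
            by_cases hxB : x ∈ B
            · have hyB : y ∉ B := by
                intro hyB
                apply heB
                intro z hz
                rw [Sym2.mem_iff] at hz
                rcases hz with rfl | rfl
                · exact hxB
                · exact hyB
              exact key x y hxy hx hy hxB (by rw [hC, mem_sdiff]; exact ⟨hy, hyB⟩)
            · have hxC : x ∈ C := by rw [hC, mem_sdiff]; exact ⟨hx, hxB⟩
              have hyC : y ∉ C := by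
                intro hyC
                apply heC
                intro z hz
                rw [Sym2.mem_iff] at hz
                rcases hz with rfl | rfl
                · exact hxC
                · exact hyC
              have hyB : y ∈ B := by
                by_contra hyB
                exact hyC (by rw [hC, mem_sdiff]; exact ⟨hy, hyB⟩)
              have := key y x hxy.symm hy hx hyB hxC
              rwa [Sym2.eq_swap] at this
        have h1 := Set.encard_le_encard hsub
        rw [Set.encard_coe_eq_coe_finsetCard] at h1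
        have h2 := h1.trans (Set.encard_image_le _ _)
        have h3 := lt_of_le_of_lt h2 hT
        have h4 : ((G.edgeFinset.filter (fun e => (∀ x ∈ e, x ∈ A) ∧ ¬ (∀ x ∈ e, x ∈ B) ∧
          ¬ (∀ x ∈ e, x ∈ C))).card : ℕ) < s + 1 := by exact_mod_cast h3
        omega
      have hsplit : ein G A ≤ ein G B + ein G C + s := by
        have hsub : G.edgeFinset.filter (fun e => ∀ x ∈ e, x ∈ A) ⊆
            (G.edgeFinset.filter (fun e => ∀ x ∈ e, x ∈ B) ∪
            G.edgeFinset.filter (fun e => ∀ x ∈ e, x ∈ C)) ∪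
            (G.edgeFinset.filter (fun e => (∀ x ∈ e, x ∈ A) ∧ ¬ (∀ x ∈ e, x ∈ B) ∧
          ¬ (∀ x ∈ e, x ∈ C))) := by
          intro e he
          simp only [mem_union, mem_filter] at he ⊢
          tauto
        have h1 := card_le_card hsub
        have h2 := card_union_le
          (G.edgeFinset.filter (fun e => ∀ x ∈ e, x ∈ B) ∪
            G.edgeFinset.filter (fun e => ∀ x ∈ e, x ∈ C))
          (G.edgeFinset.filter (fun e => (∀ x ∈ e, x ∈ A) ∧ ¬ (∀ x ∈ e, x ∈ B) ∧
          ¬ (∀ x ∈ e, x ∈ C)))
        have h3 := card_union_le (G.edgeFinset.filter (fun e => ∀ x ∈ e, x ∈ B))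
            (G.edgeFinset.filter (fun e => ∀ x ∈ e, x ∈ C))
        unfold ein
        omega
      by_cases hBig : s * (B.card - 1) < ein G B
      · exact ih B.card (by omega) B rfl hBig
      · refine ih C.card (by omega) C rfl ?_
        obtain ⟨b, hb⟩ : ∃ b, B.card = b + 1 := ⟨B.card - 1, by omega⟩
        obtain ⟨c, hc⟩ : ∃ c, C.card = c + 1 := ⟨C.card - 1, by omega⟩
        have hA' : A.card - 1 = b + c + 1 := by omega
        rw [hA'] at hA
        rw [hb] at hBig
        rw [hc]
        simp only [Nat.add_sub_cancel] at hBig ⊢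
        have e1 : s * (b + c + 1) = s * b + s * c + s := by ring
        omega

lemma lower (l : ℕ) (hl : 1 ≤ l) (h2 : 2 ≤ Fintype.card V) (h : (l : ℚ) ≤ avgConn G) :
    HasTEC G (l / 2 + 1) := by
  classical
  have hn : (2 : ℚ) ≤ Fintype.card V := by exact_mod_cast h2
  have hpos : (0 : ℚ) < (Fintype.card V : ℚ) * (Fintype.card V - 1) := by
    apply mul_pos <;> linarith
  unfold avgConn at h
  rw [le_div_iff₀ hpos] at h
  have h3 : (∑ p ∈ (univ : Finset V).offDiag, (lam G p.1 p.2 : ℚ)) ≤
      (Fintype.card V - 1) * (2 * G.edgeFinset.card) := by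
    calc (∑ p ∈ (univ : Finset V).offDiag, (lam G p.1 p.2 : ℚ))
        ≤ ∑ p ∈ (univ : Finset V).offDiag, (G.degree p.1 : ℚ) := by
          apply sum_le_sum
          intro p hp
          rw [mem_offDiag] at hp
          exact_mod_cast lam_le_degree G hp.2.2
      _ = ∑ v : V, (Fintype.card V - 1) * (G.degree v : ℚ) := by
          have : (univ : Finset V).offDiag =
              ((univ : Finset V) ×ˢ (univ : Finset V)).filter (fun p => p.1 ≠ p.2) := by
            ext p
            simp [mem_offDiag]
          rw [this, sum_filter, sum_product]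
          apply sum_congr rfl
          intro v _
          rw [← sum_filter]
          change ∑ a ∈ (univ : Finset V).filter (fun a => v ≠ a), (G.degree v : ℚ) = _
          rw [sum_const, nsmul_eq_mul, filter_ne, card_erase_of_mem (mem_univ v),
            card_univ, Nat.cast_sub (by omega)]
          simp
      _ = (Fintype.card V - 1) * (2 * G.edgeFinset.card) := by
          rw [← mul_sum]
          congr 1
          have := G.sum_degrees_eq_twice_card_edges
          exact_mod_cast this
  have h4 : (l : ℚ) * (Fintype.card V * (Fintype.card V - 1)) ≤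
      (Fintype.card V - 1) * (2 * G.edgeFinset.card) := h.trans h3
  have h5 : (l : ℚ) * Fintype.card V ≤ 2 * G.edgeFinset.card := by
    have hn1 : (0 : ℚ) < (Fintype.card V : ℚ) - 1 := by linarith
    nlinarith
  have h6 : l * Fintype.card V ≤ 2 * G.edgeFinset.card := by exact_mod_cast h5
  apply exists_tec G (l / 2) _ univ rfl
  have h7 : ein G univ = G.edgeFinset.card := by
    unfold ein
    congr 1
    apply filter_true_of_mem
    intro e _ x _
    exact mem_univ x
  rw [h7, card_univ]
  obtain ⟨N, hN⟩ : ∃ N, Fintype.card V = N + 2 := ⟨Fintype.card V - 2, by omega⟩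
  rw [hN] at h6 ⊢
  have h8 : 2 * (l / 2) ≤ l := Nat.mul_div_le l 2
  have h9 : 2 * (l / 2 * (N + 2)) ≤ l * (N + 2) := by
    calc 2 * (l / 2 * (N + 2)) = (2 * (l / 2)) * (N + 2) := by ring
      _ ≤ l * (N + 2) := Nat.mul_le_mul_right _ h8
  have h10 : l / 2 * (N + 2 - 1) + l / 2 = l / 2 * (N + 2) := by
    have : N + 2 - 1 = N + 1 := by omega
    rw [this]; ring
  have h11 : N + 2 ≤ l * (N + 2) := Nat.le_mul_of_pos_left _ hl
  rcases Nat.eq_zero_or_pos (l / 2) with h0 | h0
  · rw [h0, Nat.zero_mul]
    omega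
  · omega

end lower

section upper

/-- the path with `k` vertices blown up by independent sets of size `d` -/
def blow (k d : ℕ) : SimpleGraph (Fin k × Fin d) where
  Adj x y := x.1.val + 1 = y.1.val ∨ y.1.val + 1 = x.1.val
  symm := ⟨fun _ _ h => h.symm⟩
  loopless := ⟨fun x h => by rcases h with h | h <;> omega⟩

instance (k d : ℕ) : DecidableRel (blow k d).Adj := fun x y => by unfold blow; infer_instance

lemma not_tec (k d t : ℕ) (ht : d < t) : ¬ HasTEC (blow k d) t := by
  classical
  rintro ⟨H, hnt, hc⟩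
  obtain ⟨x, hx, hmax⟩ := (Set.toFinite H.verts).exists_maximalFor (fun x => x.1.val) _ hnt.nonempty
  obtain ⟨y, hy, hyx⟩ := hnt.exists_ne x
  have hmax' : ∀ z ∈ H.verts, z.1.val ≤ x.1.val := by
    intro z hz
    rcases le_total z.1.val x.1.val with h | h
    · exact h
    · exact hmax hz h
  -- the edges at x
  let T : Set (Sym2 H.verts) := {e | (⟨x, hx⟩ : H.verts) ∈ e ∧ e ∈ H.coe.edgeSet}
  have hT : T.encard < t := by
    -- inject into Fin d
    have hinj : T ⊆ (fun b : Fin d => (if h : ∃ z : H.verts, z.1.2 = b ∧ H.coe.Adj ⟨x, hx⟩ z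
        then s(⟨x, hx⟩, h.choose) else s(⟨x, hx⟩, ⟨x, hx⟩))) '' Set.univ := by
      intro e he
      obtain ⟨hxe, hee⟩ := he
      obtain ⟨z, rfl⟩ := Sym2.mem_iff_exists.1 hxe
      have hadj : H.coe.Adj ⟨x, hx⟩ z := hee
      have hlay : ∀ w : H.verts, H.coe.Adj ⟨x, hx⟩ w → w.1.1.val + 1 = x.1.val := by
        intro w hw
        have h1 : (blow k d).Adj x w.1 := H.adj_sub hw
        have h2 := hmax' w.1 w.2
        rcases h1 with h1 | h1
        · omega
        · exact h1
      refine ⟨z.1.2, trivial, ?_⟩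
      have hex : ∃ w : H.verts, w.1.2 = z.1.2 ∧ H.coe.Adj ⟨x, hx⟩ w := ⟨z, rfl, hadj⟩
      simp only [dif_pos hex]
      have hw := hex.choose_spec
      have : hex.choose = z := by
        apply Subtype.ext
        apply Prod.ext
        · apply Fin.ext
          have := hlay _ hw.2
          have := hlay _ hadj
          omega
        · exact hw.1
      rw [this]
    calc T.encard ≤ _ := Set.encard_le_encard hinj
      _ ≤ (Set.univ : Set (Fin d)).encard := Set.encard_image_le _ _
      _ = d := by simp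
      _ < t := by exact_mod_cast ht
  have hr := hc ⟨x, hx⟩ ⟨y, hy⟩ hT
  obtain ⟨p⟩ := hr
  have hne : (⟨x, hx⟩ : H.verts) ≠ ⟨y, hy⟩ := fun h => hyx (congrArg Subtype.val h).symm
  have hnn : ¬ p.Nil := Walk.not_nil_of_ne hne
  have h1 := Walk.adj_snd hnn
  rw [deleteEdges_adj] at h1
  exact h1.2 ⟨by simp, h1.1⟩

/-- number of cut edges between two consecutive layers -/
lemma layer_split (d : ℕ) (P Q : Fin d → Prop) [DecidablePred P] [DecidablePred Q]
    (a b : Fin d) (ha : P a) (hb : ¬ P b) :
    d ≤ ((univ : Finset (Fin d × Fin d)).filter (fun p => ¬ (P p.1 ↔ Q p.2))).card := by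
  have : (univ.image (fun c : Fin d => if Q c then (b, c) else (a, c))).card ≤
      ((univ : Finset (Fin d × Fin d)).filter (fun p => ¬ (P p.1 ↔ Q p.2))).card := by
    apply card_le_card
    intro p hp
    rw [mem_image] at hp
    obtain ⟨c, _, rfl⟩ := hp
    rw [mem_filter]
    refine ⟨mem_univ _, ?_⟩
    split_ifs with hc
    · simp [hb, hc]
    · simp [ha, hc]
  rw [card_image_of_injective _ (by
    intro c c' h
    have h1 : (if Q c then (b, c) else (a, c)).2 = (if Q c' then (b, c') else (a, c')).2 :=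
      congrArg Prod.snd h
    have h2 : ∀ c, (if Q c then (b, c) else (a, c)).2 = c := by
      intro c; split_ifs <;> rfl
    rwa [h2, h2] at h1)] at this
  simpa using this

/-- cut edges between layers `i` and `i + 1` -/
def lay (k d : ℕ) (S : Finset (Fin k × Fin d)) (i : ℕ) (hi : i + 1 < k) :
    Finset (Fin d × Fin d) :=
  univ.filter (fun p => ¬ (((⟨i, by omega⟩, p.1) : Fin k × Fin d) ∈ S ↔
    ((⟨i + 1, hi⟩, p.2) : Fin k × Fin d) ∈ S))

lemma lay_le (k d : ℕ) (S : Finset (Fin k × Fin d)) (i : ℕ) (hi : i + 1 < k) :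
    (lay k d S i hi).card ≤ (Pool.Agent.H157R2.Menger.cut (blow k d) S).card := by
  apply card_le_card_of_injOn (fun p => s((⟨i, by omega⟩, p.1), (⟨i + 1, hi⟩, p.2)))
  · intro p hp
    simp only [lay, coe_filter, mem_univ, true_and, Set.mem_ofPred_eq] at hp
    simp only [Pool.Agent.H157R2.Menger.cut, coe_filter, Set.mem_ofPred_eq, mem_edgeFinset]
    refine ⟨?_, ?_⟩
    · exact Or.inl rfl
    · by_cases h : ((⟨i, by omega⟩, p.1) : Fin k × Fin d) ∈ S
      · have h' : ((⟨i + 1, hi⟩, p.2) : Fin k × Fin d) ∉ S := fun h' => hp (by tauto)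
        exact ⟨⟨_, by simp, h⟩, ⟨_, by simp, h'⟩⟩
      · have h' : ((⟨i + 1, hi⟩, p.2) : Fin k × Fin d) ∈ S := by tauto
        exact ⟨⟨_, by simp, h'⟩, ⟨_, by simp, h⟩⟩
  · intro p _ q _ h
    simp only [Sym2.eq_iff, Prod.mk.injEq, Fin.mk.injEq] at h
    rcases h with h | h
    · exact Prod.ext h.1.2 h.2.2
    · omega

lemma lay_two_le (k d : ℕ) (S : Finset (Fin k × Fin d)) (i : ℕ) (hi : i + 2 < k) :
    (lay k d S i (by omega)).card + (lay k d S (i + 1) hi).card ≤
      (Pool.Agent.H157R2.Menger.cut (blow k d) S).card := by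
  rw [← card_disjSum]
  apply card_le_card_of_injOn (fun p => p.elim
    (fun p => s((⟨i, by omega⟩, p.1), (⟨i + 1, by omega⟩, p.2)))
    (fun p => s((⟨i + 1, by omega⟩, p.1), (⟨i + 1 + 1, by omega⟩, p.2))))
  · intro p hp
    rw [mem_coe, mem_disjSum] at hp
    have main : ∀ (j : ℕ) (hj : j + 1 < k) (q : Fin d × Fin d), q ∈ lay k d S j hj →
        s(((⟨j, by omega⟩, q.1) : Fin k × Fin d), (⟨j + 1, hj⟩, q.2)) ∈
        (Pool.Agent.H157R2.Menger.cut (blow k d) S : Set (Sym2 (Fin k × Fin d))) := by
      intro j hj q hq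
      simp only [lay, mem_filter, mem_univ, true_and] at hq
      simp only [Pool.Agent.H157R2.Menger.cut, coe_filter, Set.mem_ofPred_eq, mem_edgeFinset]
      refine ⟨?_, ?_⟩
      · exact Or.inl rfl
      · by_cases h : ((⟨j, by omega⟩, q.1) : Fin k × Fin d) ∈ S
        · have h' : ((⟨j + 1, hj⟩, q.2) : Fin k × Fin d) ∉ S := fun h' => hq (by tauto)
          exact ⟨⟨_, by simp, h⟩, ⟨_, by simp, h'⟩⟩
        · have h' : ((⟨j + 1, hj⟩, q.2) : Fin k × Fin d) ∈ S := by tauto
          exact ⟨⟨_, by simp, h'⟩, ⟨_, by simp, h⟩⟩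
    rcases hp with ⟨q, hq, rfl⟩ | ⟨q, hq, rfl⟩
    · exact main i (by omega) q hq
    · exact main (i + 1) hi q hq
  · intro p _ q _ h
    rcases p with p | p <;> rcases q with q | q <;>
      simp only [Sum.elim_inl, Sum.elim_inr, Sym2.eq_iff, Prod.mk.injEq, Fin.mk.injEq] at h
    · rcases h with h | h
      · exact congrArg Sum.inl (Prod.ext h.1.2 h.2.2)
      · omega
    · omega
    · omega
    · rcases h with h | h
      · exact congrArg Sum.inr (Prod.ext h.1.2 h.2.2)
      · omega

lemma cut_ge (k d : ℕ) (hd : 2 ≤ d) (v w : Fin k × Fin d)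
    (hv1 : 1 ≤ v.1.val) (hv2 : v.1.val + 2 ≤ k) (hw1 : 1 ≤ w.1.val) (hw2 : w.1.val + 2 ≤ k)
    (S : Finset (Fin k × Fin d)) (hv : v ∈ S) (hw : w ∉ S) :
    2 * d ≤ (Pool.Agent.H157R2.Menger.cut (blow k d) S).card := by
  classical
  by_cases hsp : ∃ (i : ℕ) (hi : i + 2 < k) (a b : Fin d),
      ((⟨i + 1, by omega⟩, a) : Fin k × Fin d) ∈ S ∧
      ((⟨i + 1, by omega⟩, b) : Fin k × Fin d) ∉ S
  · obtain ⟨i, hi, a, b, ha, hb⟩ := hsp
    have h1 : d ≤ (lay k d S (i + 1) hi).card :=
      layer_split d (fun c => ((⟨i + 1, by omega⟩, c) : Fin k × Fin d) ∈ S)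
        (fun c => ((⟨i + 1 + 1, by omega⟩, c) : Fin k × Fin d) ∈ S) a b ha hb
    have h2 : d ≤ (lay k d S i (by omega)).card := by
      have h3 := layer_split d (fun c => ((⟨i + 1, by omega⟩, c) : Fin k × Fin d) ∈ S)
        (fun c => ((⟨i, by omega⟩, c) : Fin k × Fin d) ∈ S) a b ha hb
      refine h3.trans ?_
      apply card_le_card_of_injOn Prod.swap
      · intro p hp
        simp only [coe_filter, mem_univ, true_and, Set.mem_ofPred_eq] at hp
        simp only [lay, coe_filter, mem_univ, true_and, Set.mem_ofPred_eq, Prod.fst_swap,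
          Prod.snd_swap]
        tauto
      · exact Prod.swap_injective.injOn
    have h4 := lay_two_le k d S i hi
    omega
  · push Not at hsp
    -- no interior layer is split
    have hmem : ∀ (i : ℕ) (hi : i + 2 < k) (a b : Fin d),
        ((⟨i + 1, by omega⟩, a) : Fin k × Fin d) ∈ S →
        ((⟨i + 1, by omega⟩, b) : Fin k × Fin d) ∈ S := hsp
    have ha0 : 0 < d := by omega
    -- find a transition
    have htrans : ∃ (i : ℕ) (hi : i + 1 < k),
        ∀ a b : Fin d, ¬ (((⟨i, by omega⟩, a) : Fin k × Fin d) ∈ S ↔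
          ((⟨i + 1, hi⟩, b) : Fin k × Fin d) ∈ S) := by
      by_contra hcon
      push Not at hcon
      -- all interior layers have the same status
      have hall : ∀ (n : ℕ) (hn : n + 2 < k), (((⟨n + 1, by omega⟩, v.2) : Fin k × Fin d) ∈ S ↔
          ((⟨1, by omega⟩, v.2) : Fin k × Fin d) ∈ S) := by
        intro n
        induction n with
        | zero => intro _; rfl
        | succ n ihn =>
          intro hn
          rw [← ihn (by omega)]
          obtain ⟨a, b, hab⟩ := hcon (n + 1) (by omega)
          constructor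
          · intro h
            have h1 := hmem (n + 1) (by omega) v.2 b h
            exact hmem n (by omega) a v.2 (hab.2 h1)
          · intro h
            have h1 := hmem n (by omega) v.2 a h
            exact hmem (n + 1) (by omega) b v.2 (hab.1 h1)
      have e1 := hall (v.1.val - 1) (by omega)
      have e2 := hall (w.1.val - 1) (by omega)
      have f1 : ((⟨v.1.val - 1 + 1, by omega⟩, v.2) : Fin k × Fin d) = v := by
        apply Prod.ext
        · apply Fin.ext; simp only; omega
        · rfl
      rw [f1] at e1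
      have g1 := e2.2 (e1.1 hv)
      have g2 := hmem (w.1.val - 1) (by omega) v.2 w.2 g1
      have f2 : ((⟨w.1.val - 1 + 1, by omega⟩, w.2) : Fin k × Fin d) = w := by
        apply Prod.ext
        · apply Fin.ext; simp only; omega
        · rfl
      rw [f2] at g2
      exact hw g2
    obtain ⟨i, hi, hab⟩ := htrans
    have h1 : (lay k d S i hi).card = d * d := by
      have : lay k d S i hi = univ := by
        unfold lay
        apply filter_true_of_mem
        intro p _
        exact hab p.1 p.2
      rw [this, card_univ, Fintype.card_prod, Fintype.card_fin]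
    have h2 := lay_le k d S i hi
    have h3 : 2 * d ≤ d * d := Nat.mul_le_mul_right d hd
    omega

lemma lam_ge (k d : ℕ) (hd : 2 ≤ d) (v w : Fin k × Fin d) (hvw : v ≠ w)
    (hv1 : 1 ≤ v.1.val) (hv2 : v.1.val + 2 ≤ k) (hw1 : 1 ≤ w.1.val) (hw2 : w.1.val + 2 ≤ k) :
    2 * d ≤ lam (blow k d) v w := by
  unfold lam
  apply le_csSup (lam_bdd (blow k d) hvw)
  exact Pool.Agent.H157R2.Menger.edge_menger (blow k d) v w hvw (2 * d)
    (fun S hv hw => cut_ge k d hd v w hv1 hv2 hw1 hw2 S hv hw)

lemma avg_ge (d : ℕ) (hd : 2 ≤ d) : ((2 * d - 1 : ℕ) : ℚ) ≤ avgConn (blow (8 * d + 1) d) := by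
  classical
  set k := 8 * d + 1 with hk
  set I : Finset (Fin k × Fin d) := univ.filter (fun v => 1 ≤ v.1.val ∧ v.1.val + 2 ≤ k) with hI
  have hIcard : I.card = (k - 2) * d := by
    have : I = ((univ : Finset (Fin k)).filter (fun i => 1 ≤ i.val ∧ i.val + 2 ≤ k)) ×ˢ
        (univ : Finset (Fin d)) := by
      ext v
      simp [hI]
    rw [this, card_product, card_univ, Fintype.card_fin]
    congr 1
    have h2 : (((univ : Finset (Fin k)).filter (fun i => 1 ≤ i.val ∧ i.val + 2 ≤ k)).map
        Fin.valEmbedding) = Finset.Icc 1 (k - 2) := by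
      ext i
      simp only [mem_map, mem_filter, mem_univ, true_and, Fin.valEmbedding_apply, mem_Icc]
      constructor
      · rintro ⟨j, hj, rfl⟩; omega
      · intro h
        exact ⟨⟨i, by omega⟩, by simp only; omega, rfl⟩
    rw [← card_map Fin.valEmbedding, h2, Nat.card_Icc]
    omega
  have hcard : Fintype.card (Fin k × Fin d) = k * d := by
    rw [Fintype.card_prod, Fintype.card_fin, Fintype.card_fin]
  have hsum : ((2 * d : ℕ) : ℚ) * (I.offDiag.card : ℚ) ≤
      ∑ p ∈ (univ : Finset (Fin k × Fin d)).offDiag, (lam (blow k d) p.1 p.2 : ℚ) := by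
    calc ((2 * d : ℕ) : ℚ) * (I.offDiag.card : ℚ) = ∑ p ∈ I.offDiag, ((2 * d : ℕ) : ℚ) := by
          rw [sum_const, nsmul_eq_mul, mul_comm]
      _ ≤ ∑ p ∈ I.offDiag, (lam (blow k d) p.1 p.2 : ℚ) := by
          apply sum_le_sum
          intro p hp
          rw [mem_offDiag] at hp
          obtain ⟨h1, h2, h3⟩ := hp
          simp only [hI, mem_filter, mem_univ, true_and] at h1 h2
          exact_mod_cast lam_ge k d hd p.1 p.2 h3 h1.1 h1.2 h2.1 h2.2
      _ ≤ _ := by
          apply sum_le_sum_of_subset_of_nonneg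
          · intro p hp
            rw [mem_offDiag] at hp ⊢
            exact ⟨mem_univ _, mem_univ _, hp.2.2⟩
          · intro p _ _
            positivity
  unfold avgConn
  rw [hcard]
  have hd' : (2 : ℚ) ≤ d := by exact_mod_cast hd
  have hkd : (2 : ℚ) ≤ ((k * d : ℕ) : ℚ) := by
    have : 2 ≤ k * d := by rw [hk]; nlinarith
    exact_mod_cast this
  rw [le_div_iff₀ (by apply mul_pos <;> linarith)]
  refine le_trans ?_ hsum
  rw [offDiag_card, hIcard]
  have e1 : ((((k - 2) * d * ((k - 2) * d) - (k - 2) * d : ℕ)) : ℚ) =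
      ((k : ℚ) - 2) * d * (((k : ℚ) - 2) * d) - ((k : ℚ) - 2) * d := by
    rw [Nat.cast_sub (Nat.le_mul_self _)]
    push_cast
    rw [Nat.cast_sub (by omega)]
    push_cast
    ring
  rw [e1, Nat.cast_sub (by omega)]
  push_cast
  have hk' : (k : ℚ) = 8 * d + 1 := by rw [hk]; push_cast; ring
  rw [hk']
  have key : (2 * (d : ℚ)) * ((8 * d + 1 - 2) * d * ((8 * d + 1 - 2) * d) - (8 * d + 1 - 2) * d) -
      (2 * d - 1) * ((8 * d + 1) * d * ((8 * d + 1) * d - 1)) =
      d ^ 2 * (8 * d + 1) ^ 2 - d * (8 * d + 1) * (8 * d ^ 2 + 1) + 4 * d ^ 2 * (2 * d + 1) := by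
    ring
  have key2 : 0 ≤ (d : ℚ) ^ 2 * (8 * d + 1) ^ 2 - d * (8 * d + 1) * (8 * d ^ 2 + 1) +
      4 * d ^ 2 * (2 * d + 1) := by
    have : (d : ℚ) ^ 2 * (8 * d + 1) ^ 2 - d * (8 * d + 1) * (8 * d ^ 2 + 1) +
      4 * d ^ 2 * (2 * d + 1) = d * (8 * d + 1) * (d - 1) + 4 * d ^ 2 * (2 * d + 1) := by ring
    rw [this]
    have : (0 : ℚ) ≤ d - 1 := by linarith
    positivity
  linarith

lemma avg_one : ((1 : ℕ) : ℚ) ≤ avgConn (blow 2 1) := by
  classical
  have hlam : ∀ v w : Fin 2 × Fin 1, v ≠ w → 1 ≤ lam (blow 2 1) v w := by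
    intro v w hvw
    unfold lam
    apply le_csSup (lam_bdd (blow 2 1) hvw)
    have hadj : (blow 2 1).Adj v w := by
      revert v w
      decide
    refine ⟨fun _ => Walk.cons hadj Walk.nil, ?_, ?_⟩
    · intro _
      simp [hvw]
    · intro i j hij
      exact absurd (Subsingleton.elim i j) hij
  unfold avgConn
  have hcard : Fintype.card (Fin 2 × Fin 1) = 2 := by simp
  rw [hcard, le_div_iff₀ (by norm_num)]
  have hc : ((univ : Finset (Fin 2 × Fin 1)).offDiag.card : ℚ) = 2 := by
    rw [offDiag_card, card_univ, hcard]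
    norm_num
  calc ((1 : ℕ) : ℚ) * (((2 : ℕ) : ℚ) * (((2 : ℕ) : ℚ) - 1)) =
        ((univ : Finset (Fin 2 × Fin 1)).offDiag.card : ℚ) := by rw [hc]; norm_num
    _ = ∑ p ∈ (univ : Finset (Fin 2 × Fin 1)).offDiag, (1 : ℚ) := by simp
    _ ≤ _ := by
        apply sum_le_sum
        intro p hp
        rw [mem_offDiag] at hp
        exact_mod_cast hlam p.1 p.2 hp.2.2

end upper

/-- **The exact value.** For every positive integer `l`, the largest `t` such that every finite graph
with average edge-connectivity at least `l` contains a `t`-edge-connected subgraph is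
`⌊l/2⌋ + 1`. -/
theorem result : ∀ l : ℕ, 1 ≤ l →
    IsGreatest {t : ℕ | ∀ (V : Type) [Fintype V] [DecidableEq V] (G : SimpleGraph V),
      2 ≤ Fintype.card V → (l : ℚ) ≤ avgConn G → HasTEC G t} (l / 2 + 1) := by
  intro l hl
  constructor
  · intro V _ _ G h2 h
    exact lower G l hl h2 h
  · intro t ht
    by_contra hcon
    push Not at hcon
    by_cases h1 : l = 1
    · subst h1
      have := ht (Fin 2 × Fin 1) (blow 2 1) (by simp) avg_one
      exact not_tec 2 1 t (by omega) this
    · have hd : 2 ≤ l / 2 + 1 := by omega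
      have hle : (l : ℚ) ≤ avgConn (blow (8 * (l / 2 + 1) + 1) (l / 2 + 1)) := by
        refine le_trans ?_ (avg_ge (l / 2 + 1) hd)
        have : l ≤ 2 * (l / 2 + 1) - 1 := by omega
        exact_mod_cast this
      have := ht (Fin (8 * (l / 2 + 1) + 1) × Fin (l / 2 + 1)) _ (by
        rw [Fintype.card_prod, Fintype.card_fin, Fintype.card_fin]
        nlinarith) hle
      exact not_tec _ _ t (by omega) this

end Pool.Agent.Results.MP_3eb4be_co.ExactValue
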